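import Mathlib
import Pool.Agent.Helper79.Defl.PermDefs
import Pool.Agent.Helper79.Defl.Conv
import Pool.Agent.Helper79.Defl.Red
import Pool.Agent.Helper79.Defl.Final

/-! None of the classes `Av(25314)`, `Av(24153)`, `Av(23514)`, `Av(24513)` is deflatable. -/

namespace Pool.Agent.Results.MP_b96821_co.NotDeflatable

open Pool.Agent.Helper79.Defl

/-- Let `π` be one of `25314`, `24153`, `23514`, `24513` (one-line notation; `π i + 1` is the entry
at position `i + 1`). Every permutation avoiding `π` is contained in a simple permutation avoiding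
`π`, and `Av(π)` is not deflatable. -/
theorem result (π : Equiv.Perm (Fin 5))
    (hπ : (fun i => (π i : ℕ) + 1) = ![2, 5, 3, 1, 4] ∨ (fun i => (π i : ℕ) + 1) = ![2, 4, 1, 5, 3] ∨
      (fun i => (π i : ℕ) + 1) = ![2, 3, 5, 1, 4] ∨ (fun i => (π i : ℕ) + 1) = ![2, 4, 5, 1, 3]) :
    (∀ σ ∈ Av ⟨5, π⟩, ∃ ρ ∈ Av ⟨5, π⟩, IsSimple ρ ∧ Contained σ ρ) ∧
      ¬ Deflatable (Av ⟨5, π⟩) := by
  have key : ∀ p : Fin 5 → ℕ, (fun i => (π i : ℕ)) = p → NM p → Local p →
      (∀ σ ∈ Av ⟨5, π⟩, ∃ ρ ∈ Av ⟨5, π⟩, IsSimple ρ ∧ Contained σ ρ) ∧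
        ¬ Deflatable (Av ⟨5, π⟩) := by
    intro p hp hnm hl
    subst hp
    exact conv π fun τ hg ha => red _ hnm hl τ hg ha
  have val : ∀ p : Fin 5 → ℕ, (fun i => (π i : ℕ) + 1) = p → (fun i => (π i : ℕ)) = fun i => p i - 1 := by
    intro p hp
    funext i
    have h2 : (π i : ℕ) + 1 = p i := congrFun hp i
    show (π i : ℕ) = p i - 1
    omega
  rcases hπ with h | h | h | h
  · refine key pi25314 ?_ nm25314 local25314
    rw [val _ h]
    funext i
    fin_cases i <;> rfl
  · refine key pi24153 ?_ nm24153 local24153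
    rw [val _ h]
    funext i
    fin_cases i <;> rfl
  · refine key pi23514 ?_ nm23514 local23514
    rw [val _ h]
    funext i
    fin_cases i <;> rfl
  · refine key pi24513 ?_ nm24513 local24513
    rw [val _ h]
    funext i
    fin_cases i <;> rfl

end Pool.Agent.Results.MP_b96821_co.NotDeflatable
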